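import Pool.Agent.H56.ASM.Xb
import Pool.Agent.H28.ONE.Cls
import Pool.Agent.H91.ONE.Box
import Pool.Agent.H91.ONE.Act
import Pool.Agent.H72.KE.Exw

/-!
# No windows with a tie in the base, faster than the target

`OneLoc`: the statement at one window, for one class with a fixed label of the target. `BoxAe`: the
boxes at almost all windows. `lVoT`: the windows `BtT` are void in dimension four.
-/

set_option autoImplicit false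

namespace Pool.ONE63

open MeasureTheory Set Filter Topology
open Pool.Agent.H49.Ent Pool.Agent.H32.Dense Pool.STK Pool.KA Pool.KSAT Pool.K2S Pool.PB
open Pool.GEN Pool.S6C Pool.GRW Pool.PKG Pool.STAT Pool.LA91 Pool.RCD Pool.OWN72 Pool.MM97
open Pool.ONE72
open Pool.ONE91 (BxN ClA.anti91)
open Pool.TOP (TopS)
open Pool.LBT (ThrOf)
open Pool.ALL (RateOf)
open Pool.PRC54 (IprI)
open Pool.MIC6 (ActF)

/-- **The local statement**: one window, one class with a fixed label of the target. -/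
def OneLoc : Prop := ∀ {Sl σ h c₀ : ℝ}, 1 < σ → σ < Sl → Sl ≤ 2 → 0 < h → h ≤ 1 → 0 < c₀ →
  ∃ e₁ : ℝ, 0 < e₁ ∧ ∀ {S : PCl 4} {C₀ x₀ : ℝ} {y u v t : Fin 4} {Wd : Set ℝ}
    {d1 d2 : ℝ → ℝ} {Pt : ℝ → ℝ → ℝ} {rr : ℝ → ℝ} {g ρ₀ E E₀ a₀ M₀ : ℝ}
    {κ : ∀ (J : ℕ) (F : Fam 4 J), PtT F → Fin 4 → ℝ}
    {κc : ∀ (J : ℕ) (F : Fam 4 J), PtT F → ℝ} {N : ℚ → ℝ},
    S.Ne → TmC S C₀ →
    (∀ (τ : ℝ) (J : ℕ) (F : Fam 4 J) (A : F.Ω → Prop), S.St τ J F A → 0 < Pe F.p A) →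
    y ≠ u → y ≠ v → y ≠ t → u ≠ v → u ≠ t → v ≠ t → ActF S y → 0 < x₀ →
    (∀ x : ℝ, 0 < x → x ≤ x₀ → Bas S (fun J F A => c₀ * x * J ≤
      CH (Pool.Agent.H49.Ent.cond F.p A True) (fun ω => F.D ⌊x * J⌋₊ ω y) (ptr F J))) →
    ThrOf (Pool.ONE.tgs t) S (fun _ => Pt) → RateOf S t rr →
    DifferentiableAt ℝ rr (Pt g g) → deriv rr (Pt g g) < 1 - h →
    BxN S y u v t Wd d1 d2 (fun w => Pt w w) g ρ₀ e₁ Sl σ E → 0 < ρ₀ →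
    g < d1 g → d1 g ≤ d2 g → d2 g < 1 → 0 ≤ E₀ → Pt g g + E₀ < 1 →
    (∀ a ∈ Wd, |a - g| ≤ ρ₀ → ∀ ρ : ℝ, 0 < ρ → Bas S (fun J F A =>
      Pool.STAT.ExW F A ![y, u, v] ⌊a * J⌋₊
        (((1 - a) + (1 - d1 a) + (1 - d2 a) - ρ) * Real.log 2 * J))) →
    a₀ ∈ Wd → 0 ≤ a₀ → g - ρ₀ ≤ a₀ → a₀ < g →
    Pt a₀ a₀ - a₀ - (Sl - σ) * (g - a₀) / 4 ≤ M₀ → M₀ < Pt a₀ a₀ - a₀ →
    (∀ (τ : ℝ) (J : ℕ) (F : Fam 4 J) (A : F.Ω → Prop), S.St τ J F A →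
      ClA F A {y, u, v} t ⌊a₀ * J⌋₊ ⌊E₀ * J⌋₊ ⌊M₀ * J⌋₊ (κ J F) (κc J F)) →
    MNum S y (fun J F ω => F.d ω t - κ J F (ptr F J ω) u * F.d ω u -
      κ J F (ptr F J ω) v * F.d ω v) a₀ 1 N →
    (∀ w : ℚ, ∃ η, RNum S (fun J F => ptr F J) (vg (w : ℝ)) η) →
    ((∃ w : ℚ, a₀ < w ∧ (w : ℝ) < g ∧ 0 < N w) → ∀ P : ℚ, 0 < P →
      ∃ θ : ℚ → ℚ → ℝ, IprI S (fun J F => ptr F J) (fun J F => F.W) 0 (dQ y P)
        (mQ y (fun J F ω => F.d ω t - κ J F (ptr F J ω) u * F.d ω u -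
          κ J F (ptr F J ω) v * F.d ω v) N) θ g) →
    (∀ e : ℝ, 0 < e → ∃ P : ℚ, 0 < P ∧ ∃ r₀ : ℝ, 0 < r₀ ∧ ∀ r : ℝ, 0 < r → r < r₀ →
      ∀ w l : ℚ, g - r ≤ w → w ≤ l → (l : ℝ) ≤ g + r → FrD S y P w l (e * r)) →
    False

/-- **The boxes at almost all windows.** -/
def BoxAe : Prop := ∀ {hn : 2 ≤ 4} {S : PCl 4} {P : ℝ → ℝ → ℝ} {rr : ℝ → ℝ}
  {P' : ℕ → List (Fin 4) × Fin 4 → ℝ → ℝ → ℝ} {Λ : Finset (Fin 4) → Fin 4 → ℝ → ℝ → ℝ}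
  {PB : ℕ → List (Fin 4) × Fin 4 → ℝ → ℝ → ℝ} (H : PkT hn S P rr P' Λ PB) (hTop : TopS 4)
  (hF : FZX 3) (h : ℝ) (o : Od 4) {𝒲 : Set ℝ}, 𝒲 ⊆ Gs P rr P' Λ o ∩ Ctw Λ → 𝒲.Countable →
  (∀ x y : ℝ, x < y → (∃ a ∈ Gs P rr P' Λ o ∩ Ctw Λ, x < a ∧ a < y) →
    ∃ a ∈ 𝒲, x < a ∧ a < y) →
  ∀ᵐ g : ℝ, RwH H hTop hF h o g → ThW hn P P' PB o g → Pool.ASM.BtT 4 hn P P' PB o g →
    ∃ E : ℝ, 0 ≤ E ∧ P g g + E < 1 ∧ g < dgN hn P P' o 1 g ∧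
      dgN hn P P' o 1 g ≤ dgN hn P P' o 2 g ∧ dgN hn P P' o 2 g < 1 ∧
      ∀ e : ℝ, 0 < e → ∃ ρ₀ : ℝ, 0 < ρ₀ ∧ ∃ d1 d2 : ℝ → ℝ,
        d1 g = dgN hn P P' o 1 g ∧ d2 g = dgN hn P P' o 2 g ∧
        (∀ w ∈ 𝒲, |w - g| ≤ ρ₀ → d1 w = dgN hn P P' o 1 w ∧ d2 w = dgN hn P P' o 2 w ∧
          dgN hn P P' o 0 w = w) ∧
        ∀ S' : PCl 4, S'.Ne → (∀ (τ : ℝ) (J : ℕ) (F : Fam 4 J) (A : F.Ω → Prop),
            S'.St τ J F A → S.St τ J F A) →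
          ∃ S₁ : PCl 4, S₁.Ne ∧ (∀ (τ : ℝ) (J : ℕ) (F : Fam 4 J) (A : F.Ω → Prop),
            S₁.St τ J F A → S'.St τ J F A) ∧
            BxN S₁ (cc hn o.1.1 0) (cc hn o.1.1 1) (cc hn o.1.1 2) (cc hn o.1.1 3) 𝒲 d1 d2
              (fun w => P w w) g ρ₀ e (slN hn P P' o 1 g) (slN hn P P' o 3 g) E

/-- A countable subset which is dense in the order. -/
theorem cnt_den (A : Set ℝ) : ∃ W : Set ℝ, W ⊆ A ∧ W.Countable ∧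
    ∀ x y : ℝ, x < y → (∃ a ∈ A, x < a ∧ a < y) → ∃ a ∈ W, x < a ∧ a < y := by
  classical
  refine ⟨⋃ pq : ℚ × ℚ, {a | ∃ h : ∃ b ∈ A, (pq.1 : ℝ) < b ∧ b < pq.2, a = h.choose},
    fun a ha => ?_, countable_iUnion fun pq => ?_, fun x y hxy ⟨a, ha, h1, h2⟩ => ?_⟩
  · obtain ⟨pq, h, rfl⟩ := mem_iUnion.1 ha
    exact h.choose_spec.1
  · by_cases h : ∃ b ∈ A, (pq.1 : ℝ) < b ∧ b < pq.2
    · refine (countable_singleton h.choose).mono fun a ha => ?_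
      obtain ⟨h', rfl⟩ := ha
      rfl
    · refine countable_empty.mono fun a ha => ?_
      obtain ⟨h', -⟩ := ha
      exact (h h').elim
  · obtain ⟨p, p1, p2⟩ := exists_rat_btwn h1
    obtain ⟨q, q1, q2⟩ := exists_rat_btwn h2
    have h : ∃ b ∈ A, ((p, q).1 : ℝ) < b ∧ b < ((p, q).2 : ℚ) := ⟨a, ha, p2, q1⟩
    refine ⟨h.choose, mem_iUnion.2 ⟨(p, q), h, rfl⟩, ?_, ?_⟩
    · exact p1.trans h.choose_spec.2.1
    · exact h.choose_spec.2.2.trans q2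

/-- The box for a larger accuracy. -/
theorem bxN_mono {m : ℕ} {S : PCl m} {y u v t : Fin m} {Wd : Set ℝ} {d1 d2 d3 : ℝ → ℝ}
    {g ρ₀ e e' Sl σ E : ℝ} (h : BxN S y u v t Wd d1 d2 d3 g ρ₀ e Sl σ E) (he : e ≤ e') :
    BxN S y u v t Wd d1 d2 d3 g ρ₀ e' Sl σ E where
  lin1 w hw := (h.lin1 w hw).trans (mul_le_mul_of_nonneg_right he (abs_nonneg _))
  lin2 w hw := (h.lin2 w hw).trans (mul_le_mul_of_nonneg_right he (abs_nonneg _))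
  lin3 w hw := (h.lin3 w hw).trans (mul_le_mul_of_nonneg_right he (abs_nonneg _))
  den x z hx hz hxz h1 := h.den x z hx hz hxz ((mul_le_mul_of_nonneg_right he
    ((abs_nonneg _).trans (le_max_left _ _))).trans h1)
  labu := h.labu
  labv := h.labv
  labt := h.labt
  cfu := h.cfu
  cfv := h.cfv
  low := h.low
  pos := h.pos
  one := h.one

/-- A closed label with a larger size and a smaller precision. -/
theorem clA_wk {m J : ℕ} {F : Fam m J} {A : F.Ω → Prop} {I : Finset (Fin m)} {v : Fin m}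
    {w e e' M M' : ℕ} {a : PtT F → Fin m → ℝ} {c : PtT F → ℝ} (h : ClA F A I v w e M a c)
    (he : e ≤ e') (hM : M' ≤ M) : ClA F A I v w e' M' a c :=
  ⟨fun ω hω => ⟨fun k hk => ((h.dp ω hω).1 k hk).trans (pow_le_pow_right₀ one_le_two he),
    (h.dp ω hω).2.1.trans (pow_le_pow_right₀ one_le_two he), (h.dp ω hω).2.2.trans
    (one_div_le_one_div_of_le (by positivity) (pow_le_pow_right₀ one_le_two hM))⟩, h.ca, h.cc⟩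

/-- **No windows with a tie in the base**, faster than the target, dimension four. -/
theorem lVoT (hLoc : OneLoc) (hBox : BoxAe) : Pool.ASM.LVoX Pool.ASM.BtT 4 := by
  intro _ hn _ hF hTop S P rr P' Λ PB H h hh hh1 o
  obtain ⟨𝒲, hWs, hWc, hWd⟩ := cnt_den (Gs P rr P' Λ o ∩ Ctw Λ)
  obtain ⟨al, g₀, s, d, e₂, K₀, Na, hal, hg₀, hC⟩ := H.cl
  -- the class of one index
  obtain ⟨y, hy⟩ : ∃ y, y = cc hn o.1.1 0 := ⟨_, rfl⟩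
  obtain ⟨u, hu⟩ : ∃ u, u = cc hn o.1.1 1 := ⟨_, rfl⟩
  obtain ⟨v, hv⟩ : ∃ v, v = cc hn o.1.1 2 := ⟨_, rfl⟩
  obtain ⟨t, ht⟩ : ∃ t, t = cc hn o.1.1 3 := ⟨_, rfl⟩
  have htl : t = Pool.ONE.lst hn := by rw [ht]; exact cc_ge hn _ (le_refl 3)
  have hact : ActF S y := by rw [hy]; exact gs_act H.toPk o
  have hpos : ∀ (τ : ℝ) (J : ℕ) (F : Fam 4 J) (A : F.Ω → Prop), S.St τ J F A → 0 < Pe F.p A :=
    hC.pos
  have htm := H.toPk.tmc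
  have hcnt : Bas S (fun J F A => (cnt F.p (ptr F J) A : ℝ) ≤ Real.exp ((4 * (4 : ℕ) + 1) * J)) :=
    Bas.mono 0 hC.cnt fun J _ F A h1 => h1 J le_rfl
  obtain ⟨c₀, hc₀, x₀, hx₀, hrate⟩ := Pool.ONE91.act_rate' (y := y) H.toPk.pos hal hg₀ hC.actm (by
    rw [hy, cc_lt hn _ (by omega : 0 < 4 - 1)]
    exact hC.actb _ (o.1.2 _ rfl))
  have key : ∀ᵐ g : ℝ, ∀ i : (𝒲 × ℚ) × ℚ,
      (∃ S' : PCl 4, S'.Ne ∧ (∀ (τ : ℝ) (J : ℕ) (F : Fam 4 J) (A : F.Ω → Prop),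
        S'.St τ J F A → S.St τ J F A) ∧ Bas S' (fun J F A => ∃ (a : PtT F → Fin 4 → ℝ)
        (c : PtT F → ℝ), ClA F A {y, u, v} t ⌊(i.1.1 : ℝ) * J⌋₊ ⌊(i.1.2 : ℝ) * J⌋₊
          ⌊(i.2 : ℝ) * J⌋₊ a c)) →
      ∃ S₁ : PCl 4, S₁.Ne ∧ (∀ (τ : ℝ) (J : ℕ) (F : Fam 4 J) (A : F.Ω → Prop),
        S₁.St τ J F A → S.St τ J F A) ∧
      ∃ (κ : ∀ (J : ℕ) (F : Fam 4 J), PtT F → Fin 4 → ℝ)
        (κc : ∀ (J : ℕ) (F : Fam 4 J), PtT F → ℝ) (N : ℚ → ℝ),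
      (∀ (τ : ℝ) (J : ℕ) (F : Fam 4 J) (A : F.Ω → Prop), S₁.St τ J F A →
        ClA F A {y, u, v} t ⌊(i.1.1 : ℝ) * J⌋₊ ⌊(i.1.2 : ℝ) * J⌋₊ ⌊(i.2 : ℝ) * J⌋₊ (κ J F)
          (κc J F)) ∧
      MNum S₁ y (fun J F ω => F.d ω t - κ J F (ptr F J ω) u * F.d ω u -
        κ J F (ptr F J ω) v * F.d ω v) (i.1.1 : ℝ) 1 N ∧
      (∀ w : ℚ, ∃ η, RNum S₁ (fun J F => ptr F J) (vg (w : ℝ)) η) ∧
      ((∃ w : ℚ, (i.1.1 : ℝ) < w ∧ (w : ℝ) < g ∧ 0 < N w) → g < 1 → ∀ P : ℚ, 0 < P →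
        ∃ θ : ℚ → ℚ → ℝ, IprI S₁ (fun J F => ptr F J) (fun J F => F.W) 0 (dQ y P)
          (mQ y (fun J F ω => F.d ω t - κ J F (ptr F J ω) u * F.d ω u -
            κ J F (ptr F J ω) v * F.d ω v) N) θ g) ∧
      (∀ e : ℝ, 0 < e → ∃ P : ℚ, 0 < P ∧ ∃ r₀ : ℝ, 0 < r₀ ∧ ∀ r : ℝ, 0 < r →
        r < r₀ → ∀ w l : ℚ, g - r ≤ w → w ≤ l → (l : ℝ) ≤ g + r → ∀ (y' : Fin 4) (S'' : PCl 4),
          (∀ (τ : ℝ) (J : ℕ) (F : Fam 4 J) (A : F.Ω → Prop), S''.St τ J F A → S₁.St τ J F A) →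
          FrD S'' y' P w l (e * r)) := by
    have : Countable 𝒲 := hWc.to_subtype
    refine ae_all_iff.2 fun i => ?_
    by_cases hf : ∃ S' : PCl 4, S'.Ne ∧ (∀ (τ : ℝ) (J : ℕ) (F : Fam 4 J) (A : F.Ω → Prop),
        S'.St τ J F A → S.St τ J F A) ∧ Bas S' (fun J F A => ∃ (a : PtT F → Fin 4 → ℝ)
        (c : PtT F → ℝ), ClA F A {y, u, v} t ⌊(i.1.1 : ℝ) * J⌋₊ ⌊(i.1.2 : ℝ) * J⌋₊
          ⌊(i.2 : ℝ) * J⌋₊ a c)
    · obtain ⟨S', n1, s1, h1⟩ := hf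
      obtain ⟨S₁, n2, s2, κ, κc, N, k1, k2, k3, k4, k5⟩ := Pool.ONE28.cls_ex n1
        (fun τ J F A h => hpos τ J F A (s1 τ J F A h)) (hcnt.sub s1)
        (fun τ J F A h0 h => htm τ J F A h0 (s1 τ J F A h)) (ActF.subc s1 hact) h1
      filter_upwards [k4, k5] with g k4 k5 _
      exact ⟨S₁, n2, fun τ J F A h => s1 τ J F A (s2 τ J F A h), κ, κc, N, k1, k2, k3, k4, k5⟩
    · exact Eventually.of_forall fun g h1 => (hf h1).elim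
  filter_upwards [key, hBox H hTop hF h o hWs hWc hWd] with g kcl kbx R hT hX
  -- the slopes
  obtain ⟨-, hBt, h12⟩ := hX
  have hσ : 1 < slN hn P P' o 3 g := hT.1
  have hSl := hBt 1 le_rfl (by norm_num)
  obtain ⟨e₁, he₁, hloc⟩ := hLoc hσ hSl.1 hSl.2 hh hh1 hc₀
  obtain ⟨E, hE0, hE1, b1, b2, b3, hbx⟩ := kbx R hT ⟨rfl, hBt, h12⟩
  obtain ⟨e, he⟩ : ∃ e, e = min e₁ (1 / 2) := ⟨_, rfl⟩
  have he0 : 0 < e := by rw [he]; exact lt_min he₁ (by norm_num)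
  have hee : e ≤ e₁ := by rw [he]; exact min_le_left _ _
  have he2 : e ≤ 1 / 2 := by rw [he]; exact min_le_right _ _
  obtain ⟨ρ₀, hρ₀, d1, d2, hd1, hd2, hdw, hsub⟩ := hbx e he0
  -- the first window
  obtain ⟨S₀, n0, s0, hB0⟩ := hsub S H.toPk.ne fun _ _ _ _ h => h
  obtain ⟨a₀, ha₀, ha1, ha2⟩ := hB0.den (g - ρ₀) g (by
    rw [sub_sub_cancel_left, abs_neg, abs_of_pos hρ₀]) (by
    rw [sub_self, abs_zero]
    exact hρ₀.le) (by linarith) (by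
    rw [sub_sub_cancel_left, abs_neg, abs_of_pos hρ₀, sub_self, abs_zero, max_eq_left hρ₀.le]
    nlinarith)
  have haρ : |a₀ - g| ≤ ρ₀ := abs_le.2 ⟨by linarith, by linarith⟩
  have hg1 := R.rwd.g1
  have hgap : 0 < (slN hn P P' o 1 g - slN hn P P' o 3 g) * (g - a₀) / 4 := by
    have := mul_pos (sub_pos.2 hSl.1) (sub_pos.2 ha2)
    linarith
  obtain ⟨M₀, hM1, hM2⟩ := exists_rat_btwn (show P a₀ a₀ - a₀ -
    (slN hn P P' o 1 g - slN hn P P' o 3 g) * (g - a₀) / 4 < P a₀ a₀ - a₀ by linarith)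
  obtain ⟨E₀, hE2, hE3⟩ := exists_rat_btwn (show E < 1 - P g g by linarith)
  -- the class of the index
  obtain ⟨S₁, n1, s1, κ, κc, N, k1, k2, k3, k4, k5⟩ := kcl ((⟨a₀, ha₀⟩, E₀), M₀) ⟨S₀, n0, s0, by
    have hx : 0 < min ((E₀ : ℝ) - E) (P a₀ a₀ - a₀ - M₀) :=
      lt_min (by linarith) (by linarith)
    refine Bas.mono 0 (hB0.labt a₀ ha₀ haρ _ hx) ?_
    rintro J - F A ⟨a, c, hcl⟩
    have hJ0 : (0 : ℝ) ≤ J := Nat.cast_nonneg J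
    rw [← hy, ← hu, ← hv, ← ht] at hcl
    refine ⟨a, c, clA_wk hcl (Nat.floor_le_floor (mul_le_mul_of_nonneg_right ?_ hJ0))
      (Nat.floor_le_floor (mul_le_mul_of_nonneg_right ?_ hJ0))⟩
    · have := min_le_left ((E₀ : ℝ) - E) (P a₀ a₀ - a₀ - M₀)
      linarith
    · have := min_le_right ((E₀ : ℝ) - E) (P a₀ a₀ - a₀ - M₀)
      linarith⟩
  -- the box in a subclass
  obtain ⟨S₂, n2, s2, hB2⟩ := hsub S₁ n1 s1
  have s21 : ∀ (τ : ℝ) (J : ℕ) (F : Fam 4 J) (A : F.Ω → Prop), S₂.St τ J F A → S.St τ J F A :=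
    fun τ J F A h => s1 τ J F A (s2 τ J F A h)
  rw [← hy, ← hu, ← hv, ← ht] at hB2
  have hne : ∀ {i j : ℕ}, i < 4 → j < 4 → i ≠ j → cc hn o.1.1 i ≠ cc hn o.1.1 j :=
    fun hi hj hij h => hij (cc_inj' hn _ hi hj h)
  refine hloc (S := S₂) (C₀ := 6) (x₀ := x₀) (y := y) (u := u) (v := v) (t := t) (Wd := 𝒲)
    (d1 := d1) (d2 := d2) (Pt := P) (rr := rr) (g := g) (ρ₀ := ρ₀) (E := E) (E₀ := E₀)
    (a₀ := a₀) (M₀ := M₀) (κ := κ) (κc := κc) (N := N) n2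
    (fun τ J F A h0 h => htm τ J F A h0 (s21 τ J F A h))
    (fun τ J F A h => hpos τ J F A (s21 τ J F A h)) ?_ ?_ ?_ ?_ ?_ ?_ (ActF.subc s21 hact) hx₀
    (fun x h1 h2 => (hrate x h1 h2).sub s21) ?_ ?_ R.rwd.rdif R.defi (bxN_mono hB2 hee) hρ₀
    (by rw [hd1]; exact b1) (by rw [hd1, hd2]; exact b2) (by rw [hd2]; exact b3)
    (by linarith) (by linarith) ?_ ha₀ (by linarith [hB0.pos]) (by linarith) ha2 hM1.le hM2
    (fun τ J F A h => k1 τ J F A (s2 τ J F A h)) (k2.subc s2)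
    (fun w => (k3 w).imp fun η h => h.sub s2)
    (fun hw P₁ hP₁ => (k4 hw hg1 P₁ hP₁).imp fun θ h => h.sub s2) fun e' he' => ?_
  · rw [hy, hu]; exact hne (by norm_num) (by norm_num) (by norm_num)
  · rw [hy, hv]; exact hne (by norm_num) (by norm_num) (by norm_num)
  · rw [hy, ht]; exact hne (by norm_num) (by norm_num) (by norm_num)
  · rw [hu, hv]; exact hne (by norm_num) (by norm_num) (by norm_num)
  · rw [hu, ht]; exact hne (by norm_num) (by norm_num) (by norm_num)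
  · rw [hv, ht]; exact hne (by norm_num) (by norm_num) (by norm_num)
  · rw [htl]; exact H.tgs.sub s21
  · rw [htl]; exact H.rate.sub s21
  · intro a ha hag ρ hρ
    obtain ⟨q1, q2, q3⟩ := hdw a ha hag
    refine Bas.mono 0 ((exw_gs H (hWs ha).1 hTop hF hρ).sub s21) ?_
    intro J _ F A hA
    have e1 : (fun l : Fin (4 - 1) => cc hn o.1.1 l) = ![y, u, v] := by
      funext l
      rw [hy, hu, hv]
      fin_cases l <;> rfl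
    have e2 : ∑ j : Fin (4 - 1), (1 - dgN hn P P' o j a) =
        (1 - a) + (1 - d1 a) + (1 - d2 a) := by
      rw [q1, q2]
      have e3 : ∑ j : Fin (4 - 1), (1 - dgN hn P P' o j a) =
        ∑ j : Fin 3, (1 - dgN hn P P' o j a) := rfl
      rw [e3, Fin.sum_univ_three]
      show (1 - dgN hn P P' o 0 a) + (1 - dgN hn P P' o 1 a) + (1 - dgN hn P P' o 2 a) = _
      rw [q3]
    rw [e1, e2] at hA
    exact hA
  · obtain ⟨P₁, hP₁, r₀, hr₀, h3⟩ := k5 e' he'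
    exact ⟨P₁, hP₁, r₀, hr₀, fun r h4 h5 w l h6 h7 h8 => h3 r h4 h5 w l h6 h7 h8 y S₂ s2⟩

/-- **The boxes.** -/
theorem boxAe : BoxAe := fun H hTop hF h o _ hW hWc hWd =>
  Pool.ONE91.box_ae H hTop hF h o hW hWc hWd

/-- **No windows with a tie in the base**, faster than the target, from the local statement. -/
theorem lVoT_loc (hLoc : OneLoc) : Pool.ASM.LVoX Pool.ASM.BtT 4 := lVoT hLoc boxAe

end Pool.ONE63
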